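import Pool.Agent.Lib.MP_35b3f5_co.Final
import Pool.Agent.Lib.MP_35b3f5_co.Growth

set_option autoImplicit false

/-!
# Square-free words chosen from lists of size three

For every assignment of lists of at least three letters there is an infinite square-free word
compatible with it; more precisely, for every `n` at least `(7 / 6) ^ n / 49` words of length `n`
are prefixes of such infinite words.
-/

namespace Pool.Agent.Results.MP_35b3f5_co.ExponentiallyMany

open Finset Pool.Agent.Lib.MP35b3f5

/-- No factor of the infinite word `w` is a square: there are no position `i` and length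
`l ≥ 1` for which the blocks `w[i .. i+l-1]` and `w[i+l .. i+2l-1]` are equal. -/
def SquareFree {α : Type} (w : ℕ → α) : Prop :=
  ∀ i l : ℕ, 0 < l → ¬ ∀ k, k < l → w (i + k) = w (i + l + k)

/-- The infinite square-free words compatible with the list assignment `A`. -/
def words {α : Type} (A : ℕ → Finset α) : Set (ℕ → α) :=
  {w | (∀ n, w n ∈ A n) ∧ SquareFree w}

/-- The prefixes of length `n` of the infinite square-free words compatible with `A`. -/
def prefixes {α : Type} (A : ℕ → Finset α) (n : ℕ) : Set (Fin n → α) :=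
  {u | ∃ w ∈ words A, ∀ i : Fin n, w i = u i}

theorem C_le (w : List ℕ) : dat8.C w ≤ 49 := by
  unfold Dat.C
  by_cases h0 : (dat8.T.run w).1 = 0
  · rw [h0, dat8_valid.cv_zero]
    norm_num
  · have hI := dat8.T.run_inv dat8_valid.tab w h0
    have h := (facts hI.pos hI.lt).2.1
    have e : dat8.cv (dat8.T.run w).1 = fld (g8 (dat8.T.run w).1) 368 65535 := rfl
    rw [e]
    exact_mod_cast h

theorem C_nil : 1 ≤ dat8.C [] := by
  have h := dat8_valid.cv_one
  have e : dat8.C [] = dat8.cv 1 := rfl
  rw [e]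
  exact_mod_cast h

theorem hyp8 : Hyp dat8.α 8 dat8.C (dat8.D lam8) :=
  hyp_of_tab dat8 8 dat8_valid lam8 lam8_nonneg (hA8 dat8_valid) (fun w hw => hB8 w hw w.length)

/-- The case of lists of three natural numbers. -/
theorem nat_case (A : ℕ → Finset ℕ) (hA : ∀ n, (A n).card = 3) (n : ℕ) :
    ∃ W : Finset (Fin n → ℕ), (7 / 6 : ℚ) ^ n ≤ 49 * W.card ∧ ∀ u ∈ W, u ∈ prefixes A n := by
  classical
  have h0 : 0 < dat8.C [] := lt_of_lt_of_le one_pos C_nil
  have hcard := card_T hyp8 h0 C_le hA n
  have hα : dat8.α = 7 / 6 := by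
    have e1 : dat8.αn = 7 := rfl
    have e2 : dat8.αd = 6 := rfl
    unfold Dat.α
    rw [e1, e2]
    norm_num
  choose! v hv using fun (w : List ℕ) (hw : w ∈ T dat8.α 8 dat8.C (dat8.D lam8) A n) =>
    extend hyp8 h0 hA n w hw
  refine ⟨(T dat8.α 8 dat8.C (dat8.D lam8) A n).image (fun w => fun i : Fin n => v w i), ?_, ?_⟩
  · rw [Finset.card_image_of_injOn]
    · rw [hα] at hcard
      have h1 : (7 / 6 : ℚ) ^ n * 1 ≤ (7 / 6 : ℚ) ^ n * dat8.C [] :=
        mul_le_mul_of_nonneg_left C_nil (by positivity)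
      rw [mul_one] at h1
      rw [hα]
      exact h1.trans hcard
    · intro w hw w' hw' he
      rw [← (hv w hw).1, ← (hv w' hw').1]
      have h2 : ∀ m, m ≤ n → pre (v w) m = pre (v w') m := by
        intro m
        induction m with
        | zero => intro _; rfl
        | succ m ih =>
          intro hm
          have h3 : v w m = v w' m := congrFun he ⟨m, hm⟩
          show v w m :: pre (v w) m = v w' m :: pre (v w') m
          rw [h3, ih (by omega)]
      exact h2 n le_rfl
  · intro u hu
    rw [Finset.mem_image] at hu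
    obtain ⟨w, hw, rfl⟩ := hu
    exact ⟨v w, (hv w hw).2, fun _ => rfl⟩

theorem prefixes_finite {α : Type} (A : ℕ → Finset α) (n : ℕ) : (prefixes A n).Finite := by
  classical
  refine Set.Finite.subset (Fintype.piFinset (fun i : Fin n => A i)).finite_toSet ?_
  rintro u ⟨w, hw, hu⟩
  rw [Finset.mem_coe, Fintype.mem_piFinset]
  intro i
  rw [← hu i]
  exact hw.1 i

theorem general {α : Type} (A : ℕ → Finset α) (hA : ∀ n, 3 ≤ (A n).card) (n : ℕ) :
    (7 / 6 : ℚ) ^ n ≤ 49 * (prefixes A n).ncard := by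
  classical
  choose B hBA hB using fun n => Finset.exists_subset_card_eq (hA n)
  -- an injection of the letters used into the natural numbers
  have hc : (⋃ n, (B n : Set α)).Countable :=
    Set.countable_iUnion fun n => (B n).countable_toSet
  obtain ⟨f, hf⟩ := Set.countable_iff_exists_injOn.1 hc
  have hmem : ∀ n, ∀ a ∈ B n, a ∈ ⋃ n, (B n : Set α) := fun n a ha =>
    Set.mem_iUnion.2 ⟨n, ha⟩
  obtain ⟨W, hW, hWu⟩ := nat_case (fun n => (B n).image f) (fun n => by
    rw [Finset.card_image_of_injOn (hf.mono fun a ha => hmem n a ha), hB]) n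
  have hne : Nonempty α := by
    have : (B 0).Nonempty := by
      rw [← Finset.card_pos, hB]
      norm_num
    exact ⟨this.choose⟩
  set g : ℕ → α := Function.invFunOn f (⋃ n, (B n : Set α)) with hg
  have hgf : ∀ n, ∀ a ∈ B n, g (f a) = a := fun n a ha =>
    hf.leftInvOn_invFunOn (hmem n a ha)
  have hgm : ∀ m, ∀ x ∈ (B m).image f, g x ∈ B m ∧ f (g x) = x := by
    intro m x hx
    rw [Finset.mem_image] at hx
    obtain ⟨a, ha, rfl⟩ := hx
    rw [hgf m a ha]
    exact ⟨ha, rfl⟩
  have hsub : ((W.image (fun u => g ∘ u) : Finset (Fin n → α)) : Set (Fin n → α)) ⊆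
      prefixes A n := by
    intro u hu
    rw [Finset.mem_coe, Finset.mem_image] at hu
    obtain ⟨u, hu, rfl⟩ := hu
    obtain ⟨w, ⟨hw1, hw2⟩, hwu⟩ := hWu u hu
    refine ⟨g ∘ w, ⟨fun m => hBA m (hgm m _ (hw1 m)).1, ?_⟩, fun i => ?_⟩
    · intro i l hl h
      refine hw2 i l hl fun k hk => ?_
      rw [← (hgm _ _ (hw1 (i + k))).2, ← (hgm _ _ (hw1 (i + l + k))).2]
      exact congrArg f (h k hk)
    · show g (w i) = g (u i)
      rw [hwu i]
  have hcard : W.card ≤ (prefixes A n).ncard := by
    rw [← Finset.card_image_of_injOn (s := W) (f := fun u => g ∘ u), ← Set.ncard_coe_finset]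
    · exact Set.ncard_le_ncard hsub (prefixes_finite A n)
    · intro u hu u' hu' he
      obtain ⟨w, ⟨hw1, hw2⟩, hwu⟩ := hWu u hu
      obtain ⟨w', ⟨hw1', hw2'⟩, hwu'⟩ := hWu u' hu'
      funext i
      have h1 := (hgm _ _ (hw1 i)).2
      have h2 := (hgm _ _ (hw1' i)).2
      rw [hwu i] at h1
      rw [hwu' i] at h2
      rw [← h1, ← h2]
      exact congrArg f (congrFun he i)
  refine hW.trans ?_
  have : (W.card : ℚ) ≤ ((prefixes A n).ncard : ℚ) := by exact_mod_cast hcard
  linarith

theorem result : ∀ (α : Type) (A : ℕ → Finset α), (∀ n, 3 ≤ (A n).card) →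
    (words A).Nonempty ∧ ∀ n : ℕ, (7 / 6 : ℝ) ^ n ≤ 49 * (prefixes A n).ncard := by
  intro α A hA
  refine ⟨?_, fun n => ?_⟩
  · have h := general A hA 0
    have h1 : (prefixes A 0).Nonempty := by
      rw [Set.nonempty_iff_ne_empty]
      intro he
      rw [he] at h
      norm_num at h
    obtain ⟨u, w, hw, -⟩ := h1
    exact ⟨w, hw⟩
  · have h := general A hA n
    have h1 : (((7 / 6 : ℚ) ^ n : ℚ) : ℝ) ≤ ((49 * (prefixes A n).ncard : ℚ) : ℝ) := by
      exact_mod_cast h
    push_cast at h1
    exact h1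

end Pool.Agent.Results.MP_35b3f5_co.ExponentiallyMany
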